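import Pool.Agent.H73.UG.YbDefs

/-!
# Polynomials all of whose monomials have orders `< k`, weight `m` and degree `q`
-/

set_option autoImplicit false

open MvPolynomial

namespace Pool.Agent.H47.UG

/-- All the monomials have type `(k, m, q)`. -/
def TypP {σ R : Type} [CommSemiring R] (k m q : ℕ) (P : MvPolynomial (ℕ × σ) R) : Prop :=
  ∀ b, coeff b P ≠ 0 → Typ k m q b

namespace TypP

variable {σ R : Type} [CommRing R] {k m q m' q' : ℕ} {P Q : MvPolynomial (ℕ × σ) R}

theorem zero : TypP k m q (0 : MvPolynomial (ℕ × σ) R) := fun b hb => absurd (coeff_zero b) hb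

theorem add (hP : TypP k m q P) (hQ : TypP k m q Q) : TypP k m q (P + Q) := by
  intro b hb
  by_contra hc
  refine hb ?_
  rw [coeff_add, by_contra fun h => hc (hP b h), by_contra fun h => hc (hQ b h), add_zero]

theorem neg (hP : TypP k m q P) : TypP k m q (-P) := by
  intro b hb
  refine hP b fun h => hb ?_
  rw [coeff_neg, h, neg_zero]

theorem sub (hP : TypP k m q P) (hQ : TypP k m q Q) : TypP k m q (P - Q) := by
  rw [sub_eq_add_neg]
  exact hP.add hQ.neg

theorem sum {ι : Type} (s : Finset ι) (f : ι → MvPolynomial (ℕ × σ) R) (h : ∀ i ∈ s, TypP k m q (f i)) :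
    TypP k m q (∑ i ∈ s, f i) := by
  classical
  induction s using Finset.induction_on with
  | empty =>
    rw [Finset.sum_empty]
    exact zero
  | insert a s ha ih =>
    rw [Finset.sum_insert ha]
    exact (h a (Finset.mem_insert_self _ _)).add (ih fun i hi => h i (Finset.mem_insert_of_mem hi))

theorem mul (hP : TypP k m q P) (hQ : TypP k m' q' Q) : TypP k (m + m') (q + q') (P * Q) := by
  classical
  intro b hb
  rw [coeff_mul] at hb
  obtain ⟨⟨b1, b2⟩, h1, h2⟩ := Finset.exists_ne_zero_of_sum_ne_zero hb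
  rw [Finset.HasAntidiagonal.mem_antidiagonal] at h1
  obtain ⟨h3, h4, h5⟩ := hP b1 (left_ne_zero_of_mul h2)
  obtain ⟨h6, h7, h8⟩ := hQ b2 (right_ne_zero_of_mul h2)
  simp only at h1
  rw [← h1]
  refine ⟨fun p hp => ?_, ?_, ?_⟩
  · rcases Finset.mem_union.1 (Finsupp.support_add hp) with h | h
    · exact h3 p h
    · exact h6 p h
  · rw [map_add, h4, h7]
  · rw [map_add, h5, h8]

theorem C_mem (a : R) : TypP k 0 0 (C a : MvPolynomial (ℕ × σ) R) := by
  classical
  intro b hb
  rw [coeff_C] at hb
  split_ifs at hb with h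
  · rw [← h]
    refine ⟨fun p hp => ?_, ?_, ?_⟩
    · simp at hp
    · rw [map_zero]
    · rw [map_zero]
  · exact absurd rfl hb

theorem X_mem {s : ℕ} (hs : s < k) (i : σ) : TypP k (s + 1) 1 (X (s, i) : MvPolynomial (ℕ × σ) R) := by
  classical
  intro b hb
  rw [coeff_X] at hb
  split_ifs at hb with h
  · rw [← h]
    refine ⟨fun p hp => ?_, ?_, ?_⟩
    · have := Finsupp.support_single_subset hp
      rw [Finset.mem_singleton.1 this]
      exact hs
    · rw [Finsupp.weight_single]
      simp
    · rw [Finsupp.degree_single]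
  · exact absurd rfl hb

theorem C_mul (a : R) (hP : TypP k m q P) : TypP k m q (C a * P) := by
  have h := (C_mem (k := k) (σ := σ) a).mul hP
  rwa [zero_add, zero_add] at h

theorem prod {ι : Type} (s : Finset ι) (f : ι → MvPolynomial (ℕ × σ) R) (a c : ι → ℕ)
    (h : ∀ i ∈ s, TypP k (a i) (c i) (f i)) : TypP k (∑ i ∈ s, a i) (∑ i ∈ s, c i) (∏ i ∈ s, f i) := by
  classical
  induction s using Finset.induction_on with
  | empty =>
    rw [Finset.prod_empty, Finset.sum_empty, Finset.sum_empty, ← C_1]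
    exact C_mem 1
  | insert i s hi ih =>
    rw [Finset.prod_insert hi, Finset.sum_insert hi, Finset.sum_insert hi]
    exact (h i (Finset.mem_insert_self _ _)).mul (ih fun j hj => h j (Finset.mem_insert_of_mem hj))

theorem det {n : ℕ} (c : Fin n → ℕ) (hc : ∀ t, c t < k) (f : Fin n → σ) :
    TypP k (∑ t, (c t + 1)) n
      (Matrix.det (Matrix.of fun l t : Fin n => (X (c t, f l) : MvPolynomial (ℕ × σ) R))) := by
  classical
  rw [Matrix.det_apply]
  refine sum _ _ fun τ _ => ?_
  rw [Units.smul_def, zsmul_eq_mul]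
  have h1 : TypP k (∑ t, (c t + 1)) n
      (∏ i, Matrix.of (fun l t : Fin n => (X (c t, f l) : MvPolynomial (ℕ × σ) R)) (τ i) i) := by
    have h2 := prod (R := R) (k := k) Finset.univ
      (fun i => (X (c i, f (τ i)) : MvPolynomial (ℕ × σ) R)) (fun t => c t + 1) (fun _ => 1)
      fun i _ => X_mem (hc i) _
    simpa using h2
  have h3 := C_mul ((Equiv.Perm.sign τ : ℤ) : R) h1
  simpa using h3

theorem smul {S : Type} [CommSemiring S] [Algebra S R] (a : S) (hP : TypP k m q P) : TypP k m q (a • P) := by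
  intro b hb
  refine hP b fun h => hb ?_
  rw [coeff_smul, h, smul_zero]

end TypP

end Pool.Agent.H47.UG
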