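import Pool.Agent.H35.UG.Typ
import Pool.Agent.H94.UG.Ipd

/-!
# YB-TYP: the monomials of type `(k, m, q)`, a complement of `IP`
-/

set_option autoImplicit false

open MvPolynomial

namespace Pool.Agent.H47.UG

/-- The embedding of the variables with orders `< k`. -/
def typEmb (σ : Type) (k : ℕ) : Fin k × σ ↪ ℕ × σ where
  toFun p := ((p.1 : ℕ), p.2)
  inj' := by
    rintro ⟨a, i⟩ ⟨b, j⟩ h
    simp only [Prod.mk.injEq] at h
    exact Prod.ext (Fin.ext h.1) h.2

theorem typ_exists {σ : Type} {k m q : ℕ} {b : ℕ × σ →₀ ℕ} (hb : Typ k m q b) :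
    ∃ a : Fin k × σ →₀ ℕ, a.embDomain (typEmb σ k) = b ∧
      Finsupp.weight (fun p : Fin k × σ => (p.1 : ℕ) + 1) a = m ∧ a.degree = q := by
  obtain ⟨h1, h2, h3⟩ := hb
  have h4 : ↑b.support ⊆ Set.range (typEmb σ k) := by
    rintro ⟨s, i⟩ hp
    exact ⟨(⟨s, h1 _ hp⟩, i), rfl⟩
  have h5 := Finsupp.embDomain_comapDomain h4
  refine ⟨_, h5, ?_, ?_⟩
  · rw [← h2]
    conv_rhs => rw [← h5]
    rw [Finsupp.weight_apply, Finsupp.weight_apply, Finsupp.sum_embDomain]
    rfl
  · rw [← h3]
    conv_rhs => rw [← h5]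
    rw [Finsupp.degree_eq_weight_one, Finsupp.degree_eq_weight_one, Finsupp.weight_apply,
      Finsupp.weight_apply, Finsupp.sum_embDomain]

/-- YB-TYP -/
theorem finite_typ {σ : Type} [Finite σ] (k m q : ℕ) : {b : ℕ × σ →₀ ℕ | Typ k m q b}.Finite := by
  refine ((Finsupp.finite_of_degree_le (σ := Fin k × σ) q).image fun a => a.embDomain (typEmb σ k)).subset ?_
  intro b hb
  obtain ⟨a, h1, -, h3⟩ := typ_exists hb
  exact ⟨a, h3.le, h1⟩

theorem typP_IZ {K : Type} [Field K] {n k p m q : ℕ} {v : MvPolynomial (ZI n) K} (hv : v ∈ IZ K n k p m q) :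
    TypP k m q v := by
  unfold IZ at hv
  induction hv using Submodule.span_induction with
  | mem v hv =>
    obtain ⟨c, f, q', s, l, h1, h2, rfl⟩ := hv
    have h3 : TypP k (∑ r, ∑ t, ((c r t : ℕ) + 1)) (∑ _r : Fin p, n)
        (∏ r, Matrix.det (Matrix.of fun l t : Fin n => (X ((c r t : ℕ), f r l) : MvPolynomial (ZI n) K))) :=
      TypP.prod _ _ _ _ fun r _ => TypP.det _ (fun t => (c r t).2) _
    have h4 : TypP k (∑ r, ((s r : ℕ) + 1)) (∑ _r : Fin q', 1)
        (∏ r, (X ((s r : ℕ), l r) : MvPolynomial (ZI n) K)) :=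
      TypP.prod _ _ _ _ fun r _ => TypP.X_mem (s r).2 _
    have h5 := h3.mul h4
    simp only [Finset.sum_const, Finset.card_univ, Fintype.card_fin, smul_eq_mul, mul_one] at h5
    rwa [add_comm (p * n), h1, add_comm (∑ r, ∑ t, _), h2] at h5
  | zero => exact TypP.zero
  | add v w _ _ h1 h2 => exact h1.add h2
  | smul c v _ h1 => exact h1.smul c

theorem typP_IP {K : Type} [Field K] {n k p m q : ℕ} {v : MvPolynomial (ℕ × Fin n) K}
    (hv : v ∈ IP K n k p m q) : TypP k m q v := by
  unfold IP at hv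
  induction hv using Submodule.span_induction with
  | mem v hv =>
    obtain ⟨c, q', s, l, h1, h2, rfl⟩ := hv
    have h3 : TypP k (∑ r, ∑ t, ((c r t : ℕ) + 1)) (∑ _r : Fin p, n)
        (∏ r, Matrix.det (Matrix.of fun l t : Fin n => (X ((c r t : ℕ), l) : MvPolynomial (ℕ × Fin n) K))) :=
      TypP.prod _ _ _ _ fun r _ => TypP.det _ (fun t => (c r t).2) _
    have h4 : TypP k (∑ r, ((s r : ℕ) + 1)) (∑ _r : Fin q', 1)
        (∏ r, (X ((s r : ℕ), l r) : MvPolynomial (ℕ × Fin n) K)) :=
      TypP.prod _ _ _ _ fun r _ => TypP.X_mem (s r).2 _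
    have h5 := h3.mul h4
    simp only [Finset.sum_const, Finset.card_univ, Fintype.card_fin, smul_eq_mul, mul_one] at h5
    rwa [add_comm (p * n), h1, add_comm (∑ r, ∑ t, _), h2] at h5
  | zero => exact TypP.zero
  | add v w _ _ h1 h2 => exact h1.add h2
  | smul c v _ h1 => exact h1.smul c

theorem typ_IZ {K : Type} [Field K] {n k p m q : ℕ} {v : MvPolynomial (ZI n) K} (hv : v ∈ IZ K n k p m q) :
    ∀ b ∈ v.support, Typ k m q b := fun b hb => typP_IZ hv b (mem_support_iff.1 hb)

theorem typ_IP {K : Type} [Field K] {n k p m q : ℕ} {v : MvPolynomial (ℕ × Fin n) K} (hv : v ∈ IP K n k p m q) :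
    ∀ b ∈ v.support, Typ k m q b := fun b hb => typP_IP hv b (mem_support_iff.1 hb)

/-- A monomial of degree `q` is a product of `q` variables. -/
theorem exists_list {σ : Type} (q : ℕ) : ∀ b : σ →₀ ℕ, b.degree = q →
    ∃ f : Fin q → σ, b = ∑ r, Finsupp.single (f r) 1 := by
  classical
  induction q with
  | zero =>
    intro b hb
    refine ⟨Fin.elim0, ?_⟩
    rw [Finset.univ_eq_empty, Finset.sum_empty]
    exact (Finsupp.degree_eq_zero_iff b).1 hb
  | succ q ih =>
    intro b hb
    have h1 : b ≠ 0 := by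
      rintro rfl
      rw [map_zero] at hb
      omega
    obtain ⟨i, hi⟩ := Finsupp.ne_iff.1 h1
    rw [Finsupp.zero_apply] at hi
    have h2 : b = (b - Finsupp.single i 1) + Finsupp.single i 1 := by
      ext j
      rw [Finsupp.add_apply, Finsupp.tsub_apply, Finsupp.single_apply]
      split_ifs with h
      · subst h
        omega
      · omega
    have h3 : (b - Finsupp.single i 1).degree = q := by
      have h4 := congrArg Finsupp.degree h2
      rw [map_add, hb, Finsupp.degree_single] at h4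
      omega
    obtain ⟨f, hf⟩ := ih _ h3
    refine ⟨Fin.snoc f i, ?_⟩
    rw [Fin.sum_univ_castSucc]
    simp only [Fin.snoc_castSucc, Fin.snoc_last]
    rw [← hf]
    exact h2

theorem monomial_IZ {K : Type} [Field K] {n k m q : ℕ} (b : ZI n →₀ ℕ) (hb : Typ k m q b) :
    monomial b 1 ∈ IZ K n k 0 m q := by
  classical
  obtain ⟨h1, h2, h3⟩ := hb
  obtain ⟨f, hf⟩ := exists_list q b h3
  have h4 : ∀ r, (f r).1 < k := by
    intro r
    refine h1 _ ?_
    rw [Finsupp.mem_support_iff, hf, Finsupp.finsetSum_apply]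
    have : 0 < ∑ i, (Finsupp.single (f i) 1 : ZI n →₀ ℕ) (f r) := by
      refine Finset.sum_pos' (fun _ _ => Nat.zero_le _) ⟨r, Finset.mem_univ _, ?_⟩
      rw [Finsupp.single_eq_same]
      exact one_pos
    omega
  refine Submodule.subset_span ⟨Fin.elim0, Fin.elim0, q, fun r => ⟨(f r).1, h4 r⟩, fun r => (f r).2, ?_, ?_, ?_⟩
  · simp
  · rw [← h2, hf, map_sum]
    simp [Finsupp.weight_single]
  · rw [Finset.univ_eq_empty, Finset.prod_empty, one_mul, hf, monomial_sum_one]
    rfl

/-- A complement of `IP` in the polynomials of type `(k, m, q)`. -/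
theorem exists_compl {K : Type} [Field K] (n k p m q : ℕ) :
    ∃ g : Fin (monNum n k m q - Module.finrank K (IP K n k p m q)) → MvPolynomial (ℕ × Fin n) K,
      (∀ t, ∀ b ∈ (g t).support, Typ k m q b) ∧
      ∀ b : ℕ × Fin n →₀ ℕ, Typ k m q b → monomial b 1 ∈ IP K n k p m q ⊔ Submodule.span K (Set.range g) := by
  classical
  set E : Set (ℕ × Fin n →₀ ℕ) := {b | Typ k m q b} with hE
  have hfin : Finite E := (finite_typ k m q).to_subtype
  have hbs := basisRestrictSupport K E
  have hS : FiniteDimensional K (restrictSupport K E) := Module.Finite.of_basis hbs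
  have hcard : Module.finrank K (restrictSupport K E) ≤ monNum n k m q := by
    rw [Module.finrank_eq_nat_card_basis hbs]
    have hf2 : Finite {a : Fin k × Fin n →₀ ℕ //
        Finsupp.weight (fun p : Fin k × Fin n => (p.1 : ℕ) + 1) a = m ∧ a.degree = q} :=
      (Pool.Agent.H94.UG.expo_finite n k m q).to_subtype
    have h1 : ∀ b : E, ∃ a : {a : Fin k × Fin n →₀ ℕ //
        Finsupp.weight (fun p : Fin k × Fin n => (p.1 : ℕ) + 1) a = m ∧ a.degree = q},
        a.1.embDomain (typEmb (Fin n) k) = b.1 := fun b => by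
      obtain ⟨a, h2, h3⟩ := typ_exists b.2
      exact ⟨⟨a, h3⟩, h2⟩
    choose φ hφ using h1
    refine Nat.card_le_card_of_injective φ fun b b' h => Subtype.ext ?_
    rw [← hφ, ← hφ, h]
  have hIP : IP K n k p m q ≤ restrictSupport K E := by
    intro v hv
    rw [mem_restrictSupport_iff]
    exact fun b hb => typ_IP hv b hb
  obtain ⟨C, hC⟩ := Submodule.exists_isCompl ((IP K n k p m q).comap (restrictSupport K E).subtype)
  have hr : Module.finrank K C ≤ monNum n k m q - Module.finrank K (IP K n k p m q) := by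
    have h1 := Submodule.finrank_add_eq_of_isCompl hC
    have h2 : Module.finrank K ((IP K n k p m q).comap (restrictSupport K E).subtype) =
        Module.finrank K (IP K n k p m q) :=
      (Submodule.comapSubtypeEquivOfLe hIP).finrank_eq
    omega
  have hfree : Module.Free K C := Module.Free.of_divisionRing K C
  let bC := Module.finBasis K C
  refine ⟨fun t => if h : (t : ℕ) < Module.finrank K C then (bC ⟨t, h⟩ : C).1.1 else 0, ?_, ?_⟩
  · intro t b hb
    by_cases h : (t : ℕ) < Module.finrank K C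
    · simp only [h, dite_true] at hb
      have h1 := (bC ⟨t, h⟩ : C).1.2
      rw [mem_restrictSupport_iff] at h1
      exact h1 hb
    · simp only [h, dite_false, support_zero] at hb
      simp at hb
  · intro b hb
    have h0 : (monomial b 1 : MvPolynomial (ℕ × Fin n) K) ∈ restrictSupport K E := by
      rw [mem_restrictSupport_iff]
      intro a ha
      have h1 := support_monomial_subset (Finset.mem_coe.1 ha)
      rw [Finset.mem_singleton.1 h1]
      exact hb
    have h1 : (⟨monomial b 1, h0⟩ : restrictSupport K E) ∈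
        (IP K n k p m q).comap (restrictSupport K E).subtype ⊔ C := by
      rw [hC.sup_eq_top]
      exact Submodule.mem_top
    obtain ⟨y, hy, z, hz, hyz⟩ := Submodule.mem_sup.1 h1
    have h2 : (monomial b 1 : MvPolynomial (ℕ × Fin n) K) = y.1 + z.1 :=
      (congrArg Subtype.val hyz).symm
    rw [h2]
    refine Submodule.add_mem_sup hy ?_
    have h3 := bC.sum_repr ⟨z, hz⟩
    have h4 : z.1 = ∑ i, bC.repr ⟨z, hz⟩ i • (bC i : C).1.1 := by
      have h5 := congrArg (fun w : C => w.1.1) h3
      simp only [Submodule.coe_sum, Submodule.coe_smul] at h5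
      exact h5.symm
    rw [h4]
    refine Submodule.sum_mem _ fun i _ => Submodule.smul_mem _ _ (Submodule.subset_span ?_)
    refine ⟨⟨i, lt_of_lt_of_le i.2 hr⟩, ?_⟩
    simp only [i.2, dite_true]

end Pool.Agent.H47.UG
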